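import Mathlib

/-!
# Dimensions of the corners of an algebra
-/

set_option autoImplicit false

namespace Pool.Agent.Q69.MR

/-- the dimension of `p A q` -/
noncomputable def dd (F : Type*) {A : Type*} [Field F] [Ring A] [Algebra F A] (p q : A) : ℕ :=
  Module.finrank F (LinearMap.range (LinearMap.mulLeft F p ∘ₗ LinearMap.mulRight F q))

end Pool.Agent.Q69.MR
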