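import Mathlib
import Pool.Agent.Q69.MR.Defs

/-!
# Corners of a finite dimensional regular algebra
-/

set_option autoImplicit false

namespace Pool.Agent.Q69.MR

/-- the corner `p A q` -/
noncomputable def VV (F : Type*) {A : Type*} [Field F] [Ring A] [Algebra F A] (p q : A) :
    Submodule F A :=
  LinearMap.range (LinearMap.mulLeft F p ∘ₗ LinearMap.mulRight F q)

variable {F A : Type*} [Field F] [Ring A] [Algebra F A]

theorem mem_VV {p q : A} (hp : p * p = p) (hq : q * q = q) (x : A) :
    x ∈ VV F p q ↔ p * x = x ∧ x * q = x := by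
  constructor
  · rintro ⟨y, rfl⟩
    simp only [LinearMap.comp_apply, LinearMap.mulRight_apply, LinearMap.mulLeft_apply]
    constructor
    · rw [← mul_assoc, hp]
    · rw [mul_assoc, mul_assoc, hq]
  · rintro ⟨h1, h2⟩
    exact ⟨x, by simp [h1, h2]⟩

theorem idem_sub {p e : A} (hp : p * p = p) (he : e * e = e) (h1 : p * e = e) (h2 : e * p = e) :
    (p - e) * (p - e) = p - e := by
  rw [sub_mul, mul_sub, mul_sub, hp, h1, h2, he]
  abel

theorem add_left [Module.Finite F A] {p e r : A} (hp : p * p = p) (he : e * e = e)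
    (hr : r * r = r) (h1 : p * e = e) (h2 : e * p = e) :
    dd F p r = dd F (p - e) r + dd F e r := by
  have hpe : (p - e) * (p - e) = p - e := idem_sub hp he h1 h2
  have hsup : VV F (p - e) r ⊔ VV F e r = VV F p r := by
    apply le_antisymm
    · refine sup_le ?_ ?_
      · intro x hx
        rw [mem_VV hpe hr] at hx
        rw [mem_VV hp hr]
        refine ⟨?_, hx.2⟩
        conv_lhs => rw [← hx.1]
        conv_rhs => rw [← hx.1]
        rw [← mul_assoc, mul_sub, hp, h1]
      · intro x hx
        rw [mem_VV he hr] at hx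
        rw [mem_VV hp hr]
        refine ⟨?_, hx.2⟩
        conv_lhs => rw [← hx.1]
        conv_rhs => rw [← hx.1]
        rw [← mul_assoc, h1]
    · intro x hx
      rw [mem_VV hp hr] at hx
      have h3 : x = (p - e) * x + e * x := by rw [sub_mul, hx.1]; abel
      rw [h3]
      apply Submodule.add_mem_sup
      · rw [mem_VV hpe hr]; exact ⟨by rw [← mul_assoc, hpe], by rw [mul_assoc, hx.2]⟩
      · rw [mem_VV he hr]; exact ⟨by rw [← mul_assoc, he], by rw [mul_assoc, hx.2]⟩
  have hinf : VV F (p - e) r ⊓ VV F e r = ⊥ := by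
    rw [eq_bot_iff]
    rintro x ⟨hx1, hx2⟩
    rw [SetLike.mem_coe, mem_VV hpe hr] at hx1
    rw [SetLike.mem_coe, mem_VV he hr] at hx2
    have h3 : (p - e) * x = 0 := by
      rw [← hx2.1, ← mul_assoc, sub_mul, h1, he, sub_self, zero_mul]
    rw [Submodule.mem_bot, ← hx1.1, h3]
  have h4 := Submodule.finrank_sup_add_finrank_inf_eq (VV F (p - e) r) (VV F e r)
  rw [hsup, hinf, finrank_bot, add_zero] at h4
  exact h4

theorem add_right [Module.Finite F A] {p e r : A} (hp : p * p = p) (he : e * e = e)
    (hr : r * r = r) (h1 : p * e = e) (h2 : e * p = e) :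
    dd F r p = dd F r (p - e) + dd F r e := by
  have hpe : (p - e) * (p - e) = p - e := idem_sub hp he h1 h2
  have hsup : VV F r (p - e) ⊔ VV F r e = VV F r p := by
    apply le_antisymm
    · refine sup_le ?_ ?_
      · intro x hx
        rw [mem_VV hr hpe] at hx
        rw [mem_VV hr hp]
        refine ⟨hx.1, ?_⟩
        conv_lhs => rw [← hx.2]
        conv_rhs => rw [← hx.2]
        rw [mul_assoc, sub_mul, hp, h2]
      · intro x hx
        rw [mem_VV hr he] at hx
        rw [mem_VV hr hp]
        refine ⟨hx.1, ?_⟩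
        conv_lhs => rw [← hx.2]
        conv_rhs => rw [← hx.2]
        rw [mul_assoc, h2]
    · intro x hx
      rw [mem_VV hr hp] at hx
      have h3 : x = x * (p - e) + x * e := by rw [mul_sub, hx.2]; abel
      rw [h3]
      apply Submodule.add_mem_sup
      · rw [mem_VV hr hpe]; exact ⟨by rw [← mul_assoc, hx.1], by rw [mul_assoc, hpe]⟩
      · rw [mem_VV hr he]; exact ⟨by rw [← mul_assoc, hx.1], by rw [mul_assoc, he]⟩
  have hinf : VV F r (p - e) ⊓ VV F r e = ⊥ := by
    rw [eq_bot_iff]
    rintro x ⟨hx1, hx2⟩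
    rw [SetLike.mem_coe, mem_VV hr hpe] at hx1
    rw [SetLike.mem_coe, mem_VV hr he] at hx2
    have h3 : x * (p - e) = 0 := by
      rw [← hx2.2, mul_assoc, mul_sub, h2, he, sub_self, mul_zero]
    rw [Submodule.mem_bot, ← hx1.2, h3]
  have h4 := Submodule.finrank_sup_add_finrank_inf_eq (VV F r (p - e)) (VV F r e)
  rw [hsup, hinf, finrank_bot, add_zero] at h4
  exact h4

theorem equiv_left [Module.Finite F A] {f g r : A} (hr : r * r = r) (h1 : f * g * f = f)
    (h2 : g * f * g = g) : dd F (f * g) r ≤ dd F (g * f) r := by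
  have he : (f * g) * (f * g) = f * g := by rw [← mul_assoc, h1]
  have he1 : (g * f) * (g * f) = g * f := by rw [← mul_assoc, h2]
  have hle : VV F (f * g) r ≤ (VV F (g * f) r).map (LinearMap.mulLeft F f) := by
    intro x hx
    rw [mem_VV he hr] at hx
    refine ⟨g * x, ?_, ?_⟩
    · rw [SetLike.mem_coe, mem_VV he1 hr]
      exact ⟨by rw [← mul_assoc, h2], by rw [mul_assoc, hx.2]⟩
    · rw [LinearMap.mulLeft_apply, ← mul_assoc, hx.1]
  exact (Submodule.finrank_mono hle).trans (Submodule.finrank_map_le _ _)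

theorem equiv_right [Module.Finite F A] {f g r : A} (hr : r * r = r) (h1 : f * g * f = f)
    (h2 : g * f * g = g) : dd F r (f * g) ≤ dd F r (g * f) := by
  have he : (f * g) * (f * g) = f * g := by rw [← mul_assoc, h1]
  have he1 : (g * f) * (g * f) = g * f := by rw [← mul_assoc, h2]
  have hle : VV F r (f * g) ≤ (VV F r (g * f)).map (LinearMap.mulRight F g) := by
    intro x hx
    rw [mem_VV hr he] at hx
    refine ⟨x * f, ?_, ?_⟩
    · rw [SetLike.mem_coe, mem_VV hr he1]
      exact ⟨by rw [← mul_assoc, hx.1], by rw [mul_assoc, ← mul_assoc f g f, h1]⟩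
    · rw [LinearMap.mulRight_apply, mul_assoc, hx.2]
  exact (Submodule.finrank_mono hle).trans (Submodule.finrank_map_le _ _)

theorem eq_zero_of_dd [Module.Finite F A] {p q : A} (hp : p * p = p) (hq : q * q = q)
    (h : dd F p q = 0) (x : A) (h1 : p * x = x) (h2 : x * q = x) : x = 0 := by
  have h3 : VV F p q = ⊥ := Submodule.finrank_eq_zero.1 h
  have h4 : x ∈ VV F p q := (mem_VV hp hq x).2 ⟨h1, h2⟩
  rw [h3] at h4
  exact (Submodule.mem_bot F).1 h4

theorem corner_aux [Module.Finite F A] (hreg : ∀ a : A, ∃ b, a * b * a = a) (n : ℕ) :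
    ∀ p q : A, p * p = p → q * q = q → dd F p q ≤ n →
    dd F p q + dd F q p ≤ dd F p p + dd F q q ∧
    (dd F p q + dd F q p = dd F p p + dd F q q →
      ∃ u v : A, p * u * q = u ∧ q * v * p = v ∧ u * v = p ∧ v * u = q) := by
  induction n with
  | zero =>
    intro p q hp hq h0
    have h0' : dd F p q = 0 := by omega
    have hqp : dd F q p = 0 := by
      have h3 : VV F q p = ⊥ := by
        rw [eq_bot_iff]
        intro v hv
        rw [mem_VV hq hp] at hv
        obtain ⟨w, hw⟩ := hreg v
        have h4 : p * w * q = 0 := eq_zero_of_dd hp hq h0' _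
          (by rw [← mul_assoc, ← mul_assoc, hp]) (by rw [mul_assoc, hq])
        rw [Submodule.mem_bot]
        calc v = v * w * v := hw.symm
          _ = (v * p) * w * (q * v) := by rw [hv.1, hv.2]
          _ = v * (p * w * q) * v := by simp only [mul_assoc]
          _ = 0 := by rw [h4, mul_zero, zero_mul]
      show Module.finrank F (VV F q p) = 0
      rw [h3, finrank_bot]
    rw [h0', hqp]
    refine ⟨by omega, fun h => ?_⟩
    have hpp : dd F p p = 0 := by omega
    have hqq : dd F q q = 0 := by omega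
    have h5 : p = 0 := eq_zero_of_dd hp hp hpp p hp hp
    have h6 : q = 0 := eq_zero_of_dd hq hq hqq q hq hq
    exact ⟨0, 0, by simp, by simp, by simp [h5], by simp [h6]⟩
  | succ n ih =>
    intro p q hp hq hle
    by_cases h0 : dd F p q ≤ n
    · exact ih p q hp hq h0
    have hne : VV F p q ≠ ⊥ := by
      intro h3
      have : dd F p q = 0 := by
        show Module.finrank F (VV F p q) = 0
        rw [h3, finrank_bot]
      omega
    obtain ⟨f, hf, hf0⟩ := (Submodule.ne_bot_iff _).1 hne
    rw [mem_VV hp hq] at hf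
    obtain ⟨hpf, hfq⟩ := hf
    obtain ⟨w, hw⟩ := hreg f
    obtain ⟨g, hg⟩ : ∃ g, g = q * w * f * w * p := ⟨_, rfl⟩
    have hqg : q * g = g := by rw [hg]; simp only [← mul_assoc, hq]
    have hgp : g * p = g := by rw [hg]; simp only [mul_assoc, hp]
    have hfgf : f * g * f = f := by
      calc f * g * f = (f * q) * w * f * w * (p * f) := by rw [hg]; simp only [mul_assoc]
        _ = (f * w * f) * w * f := by rw [hfq, hpf]
        _ = f := by rw [hw, hw]
    have hgfg : g * f * g = g := by
      calc g * f * g = q * w * f * w * (p * f) * (q * (w * f * w * p)) := by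
            rw [hg]; simp only [mul_assoc]
        _ = q * w * f * w * (f * q) * (w * f * w * p) := by rw [hpf]; simp only [mul_assoc]
        _ = q * w * ((f * w * f) * w * f) * w * p := by rw [hfq]; simp only [mul_assoc]
        _ = g := by rw [hw, hw, hg]
    have he : (f * g) * (f * g) = f * g := by rw [← mul_assoc, hfgf]
    have he1 : (g * f) * (g * f) = g * f := by rw [← mul_assoc, hgfg]
    have hpe : p * (f * g) = f * g := by rw [← mul_assoc, hpf]
    have hep : (f * g) * p = f * g := by rw [mul_assoc, hgp]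
    have hqe : q * (g * f) = g * f := by rw [← mul_assoc, hqg]
    have heq : (g * f) * q = g * f := by rw [mul_assoc, hfq]
    have hp' := idem_sub hp he hpe hep
    have hq' := idem_sub hq he1 hqe heq
    -- dimensions
    have a1 := add_left (F := F) hp he hq hpe hep
    have a2 := add_right (F := F) hq he1 hp' hqe heq
    have a3 := add_left (F := F) hq he1 hp hqe heq
    have a4 := add_right (F := F) hp he hq' hpe hep
    have a5 := add_left (F := F) hp he hp hpe hep
    have a6 := add_right (F := F) hp he hp' hpe hep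
    have a7 := add_left (F := F) hq he1 hq hqe heq
    have a8 := add_right (F := F) hq he1 hq' hqe heq
    have b1 := le_antisymm (equiv_left (F := F) hq hfgf hgfg) (equiv_left (F := F) hq hgfg hfgf)
    have b2 := le_antisymm (equiv_left (F := F) hp hfgf hgfg) (equiv_left (F := F) hp hgfg hfgf)
    have b3 := le_antisymm (equiv_right (F := F) hp' hfgf hgfg)
      (equiv_right (F := F) hp' hgfg hfgf)
    have b4 := le_antisymm (equiv_right (F := F) hq' hfgf hgfg)
      (equiv_right (F := F) hq' hgfg hfgf)
    have hpos : dd F (f * g) q ≠ 0 := by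
      intro h3
      exact hf0 (eq_zero_of_dd he hq h3 f hfgf hfq)
    obtain ⟨i1, i2⟩ := ih (p - f * g) (q - g * f) hp' hq' (by omega)
    refine ⟨by omega, fun h => ?_⟩
    obtain ⟨u, v, hu, hv, huv, hvu⟩ := i2 (by omega)
    have hpp' : p * (p - f * g) = p - f * g := by rw [mul_sub, hp, hpe]
    have hp'p : (p - f * g) * p = p - f * g := by rw [sub_mul, hp, hep]
    have hqq' : q * (q - g * f) = q - g * f := by rw [mul_sub, hq, hqe]
    have hq'q : (q - g * f) * q = q - g * f := by rw [sub_mul, hq, heq]
    have hp'u : (p - f * g) * u = u := by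
      rw [← hu, ← mul_assoc, ← mul_assoc, hp']
    have huq' : u * (q - g * f) = u := by
      rw [← hu, mul_assoc, hq']
    have hq'v : (q - g * f) * v = v := by
      rw [← hv, ← mul_assoc, ← mul_assoc, hq']
    have hvp' : v * (p - f * g) = v := by
      rw [← hv, mul_assoc, hp']
    have hpu : p * u = u := by rw [← hp'u, ← mul_assoc, hpp']
    have huq : u * q = u := by
      conv_lhs => rw [← huq']
      rw [mul_assoc, hq'q, huq']
    have hqv : q * v = v := by rw [← hq'v, ← mul_assoc, hqq']
    have hvp : v * p = v := by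
      conv_lhs => rw [← hvp']
      rw [mul_assoc, hp'p, hvp']
    have k1 : (q - g * f) * g = 0 := by rw [sub_mul, hqg, hgfg, sub_self]
    have k2 : f * (q - g * f) = 0 := by rw [mul_sub, hfq, ← mul_assoc, hfgf, sub_self]
    have k3 : (p - f * g) * f = 0 := by rw [sub_mul, hpf, hfgf, sub_self]
    have k4 : g * (p - f * g) = 0 := by rw [mul_sub, hgp, ← mul_assoc, hgfg, sub_self]
    have l1 : u * g = 0 := by rw [← huq', mul_assoc, k1, mul_zero]
    have l2 : f * v = 0 := by rw [← hq'v, ← mul_assoc, k2, zero_mul]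
    have l3 : v * f = 0 := by rw [← hvp', mul_assoc, k3, mul_zero]
    have l4 : g * u = 0 := by rw [← hp'u, ← mul_assoc, k4, zero_mul]
    refine ⟨u + f, v + g, ?_, ?_, ?_, ?_⟩
    · rw [mul_add, add_mul, hpu, hpf, huq, hfq]
    · rw [mul_add, add_mul, hqv, hqg, hvp, hgp]
    · rw [mul_add, add_mul, add_mul, huv, l1, l2]
      abel
    · rw [mul_add, add_mul, add_mul, hvu, l3, l4]
      abel

theorem corner {F A : Type*} [Field F] [Ring A] [Algebra F A] [Module.Finite F A]
    (hreg : ∀ a : A, ∃ b, a * b * a = a) (p q : A) (hp : p * p = p) (hq : q * q = q) :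
    dd F p q + dd F q p ≤ dd F p p + dd F q q ∧
    (dd F p q + dd F q p = dd F p p + dd F q q →
      ∃ u v : A, p * u * q = u ∧ q * v * p = v ∧ u * v = p ∧ v * u = q) :=
  corner_aux hreg (dd F p q) p q hp hq le_rfl

end Pool.Agent.Q69.MR
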