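import Mathlib

/-! A finite-dimensional algebra with a nondegenerate trace vanishing on nilpotent elements is von
Neumann regular. -/

namespace Pool.Agent.Q69.MR

theorem regular {F A : Type*} [Field F] [Ring A] [Algebra F A] [Module.Finite F A] (τ : A →ₗ[F] F)
    (hcomm : ∀ a b, τ (a * b) = τ (b * a)) (hnil : ∀ a, IsNilpotent a → τ a = 0)
    (hnd : ∀ a, (∀ b, τ (a * b) = 0) → a = 0) : ∀ a : A, ∃ b, a * b * a = a := by
  have hart : IsArtinianRing A := IsArtinianRing.of_finite F A
  have hJ : Ring.jacobson A = ⊥ := by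
    rw [eq_bot_iff]
    intro a ha
    obtain ⟨n, hn⟩ := IsSemiprimaryRing.isNilpotent (R := A)
    have key : ∀ x ∈ Ring.jacobson A, IsNilpotent x := by
      intro x hx
      refine ⟨n, ?_⟩
      have h1 : x ^ n ∈ (Ring.jacobson A) ^ n := Ideal.pow_mem_pow hx n
      rw [hn] at h1
      exact h1
    have h0 : a = 0 := by
      apply hnd
      intro b
      rw [hcomm]
      exact hnil _ (key _ (Ideal.mul_mem_left _ b ha))
    rw [h0]
    exact Submodule.zero_mem _
  have hss : IsSemisimpleRing A := IsArtinianRing.isSemisimpleRing_iff_jacobson.2 hJ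
  intro a
  obtain ⟨e, he, hI⟩ := IsSemisimpleRing.ideal_eq_span_idempotent (Ideal.span {a})
  have ha : a ∈ Ideal.span {e} := hI ▸ Ideal.subset_span (Set.mem_singleton a)
  have hee : e ∈ Ideal.span {a} := hI ▸ Ideal.subset_span (Set.mem_singleton e)
  rw [Ideal.mem_span_singleton'] at ha hee
  obtain ⟨c, hc⟩ := ha
  obtain ⟨b, hb⟩ := hee
  refine ⟨b, ?_⟩
  have h1 : a * e = a := by
    rw [← hc, mul_assoc, he.eq]
  rw [mul_assoc, hb, h1]

end Pool.Agent.Q69.MR
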