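import Pool.Agent.Q69.MR.Num
import Pool.Agent.Q69.MR.Corner
import Pool.Agent.Q69.MR.Regular

/-!
# The ranks of the morphisms modulo numerically trivial ones decide about isomorphisms
-/

set_option autoImplicit false
set_option linter.unusedSectionVars false

open CategoryTheory Limits MonoidalCategory

universe v u w

namespace Pool.Agent.Q69.MR

open Pool.Agent.Y112.SR Pool.Agent.Q259.NCSign

section

variable {C : Type u} [Category.{v} C] [Preadditive C] [Linear ℚ C] [MonoidalCategory C]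
  [SymmetricCategory C] [RightRigidCategory C] {K : Type w} [Field K] (R : SuperRealisation C K)
  (hunit : ∀ c : 𝟙_ C ⟶ 𝟙_ C, ∃ q : ℚ, c = q • 𝟙 (𝟙_ C))

/-- the ideal of the numerically trivial endomorphisms -/
noncomputable def numIdeal (P : C) : TwoSidedIdeal (End P) :=
  TwoSidedIdeal.mk' {f : End P | NumTriv (f : P ⟶ P)} (numTriv_zero R hunit)
    (fun h h' => NumTriv.add R hunit h h') (fun h => NumTriv.neg R hunit h)
    (fun h => NumTriv.comp_right h _) (fun h => NumTriv.comp_left R hunit h _)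

/-- endomorphisms modulo the numerically trivial ones -/
abbrev AA (P : C) : Type v := (numIdeal R hunit P).ringCon.Quotient

/-- the projection -/
noncomputable def pr (P : C) : End P →+* AA R hunit P := (numIdeal R hunit P).ringCon.mk'

theorem pr_surj (P : C) : Function.Surjective (pr R hunit P) :=
  RingCon.mk'_surjective _

theorem pr_eq_zero {P : C} (f : End P) : pr R hunit P f = 0 ↔ NumTriv (f : P ⟶ P) := by
  have h1 : pr R hunit P f = 0 ↔ f ∈ numIdeal R hunit P := by
    rw [TwoSidedIdeal.mem_iff, ← RingCon.eq]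
    exact Iff.rfl
  rw [h1, numIdeal, TwoSidedIdeal.mem_mk']
  exact Iff.rfl

/-- as a linear map -/
noncomputable def prl (P : C) : End P →ₗ[ℚ] AA R hunit P :=
  AddMonoidHom.toRatLinearMap (pr R hunit P).toAddMonoidHom

theorem prl_apply {P : C} (f : End P) : prl R hunit P f = pr R hunit P f := rfl

theorem finite_AA (P : C) : Module.Finite ℚ (AA R hunit P) := by
  have := finite_num R hunit P P
  let L : ((P ⟶ P) ⧸ Submodule.span ℚ {f : P ⟶ P | NumTriv f}) →ₗ[ℚ] AA R hunit P :=
    Submodule.liftQ _ (prl R hunit P : (P ⟶ P) →ₗ[ℚ] AA R hunit P) (by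
      intro f hf
      rw [mem_span_iff R hunit] at hf
      exact (pr_eq_zero R hunit f).2 hf)
  apply Module.Finite.of_surjective L
  intro a
  obtain ⟨f, rfl⟩ := pr_surj R hunit P a
  exact ⟨Submodule.Quotient.mk f, rfl⟩

/-- the trace on the quotient -/
noncomputable def tau0 (P : C) (a : AA R hunit P) : ℚ :=
  tr hunit ((Function.surjInv (pr_surj R hunit P) a : End P) : P ⟶ P)

theorem tau0_pr {P : C} (f : End P) : tau0 R hunit P (pr R hunit P f) = tr hunit (f : P ⟶ P) := by
  have h1 := Function.surjInv_eq (pr_surj R hunit P) (pr R hunit P f)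
  rw [← sub_eq_zero, ← map_sub, pr_eq_zero, numTriv_iff R hunit] at h1
  have h2 := h1 (𝟙 P)
  rw [Category.comp_id] at h2
  have h3 := tr_sub R hunit ((Function.surjInv (pr_surj R hunit P) (pr R hunit P f) : End P) : P ⟶ P)
    (f : P ⟶ P)
  rw [tau0]
  have h4 : tr hunit (((Function.surjInv (pr_surj R hunit P) (pr R hunit P f) : End P) : P ⟶ P) -
    (f : P ⟶ P)) = 0 := h2
  rw [h3] at h4
  linarith

/-- the trace on the quotient as a linear map -/
noncomputable def tau (P : C) : AA R hunit P →ₗ[ℚ] ℚ :=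
  AddMonoidHom.toRatLinearMap (AddMonoidHom.mk' (tau0 R hunit P) (fun a b => by
    obtain ⟨f, rfl⟩ := pr_surj R hunit P a
    obtain ⟨g, rfl⟩ := pr_surj R hunit P b
    rw [← map_add, tau0_pr, tau0_pr, tau0_pr]
    exact tr_add R hunit f g))

theorem tau_pr {P : C} (f : End P) : tau R hunit P (pr R hunit P f) = tr hunit (f : P ⟶ P) :=
  tau0_pr R hunit f

theorem regular_AA (P : C) : ∀ a : AA R hunit P, ∃ b, a * b * a = a := by
  have := finite_AA R hunit P
  apply regular (F := ℚ) (tau R hunit P)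
  · intro a b
    obtain ⟨f, rfl⟩ := pr_surj R hunit P a
    obtain ⟨g, rfl⟩ := pr_surj R hunit P b
    rw [← map_mul, ← map_mul, tau_pr, tau_pr]
    exact tr_comm R hunit _ _
  · rintro a ⟨n, hn⟩
    obtain ⟨f, rfl⟩ := pr_surj R hunit P a
    rw [← map_pow, pr_eq_zero] at hn
    rw [tau_pr]
    exact tr_nilp R hunit f n hn
  · intro a h
    obtain ⟨f, rfl⟩ := pr_surj R hunit P a
    rw [pr_eq_zero, numTriv_iff R hunit]
    intro g
    have h1 := h (pr R hunit P g)
    rw [← map_mul, tau_pr] at h1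
    rw [tr_comm R hunit]
    exact h1

variable {X Y P : C}

theorem pr_comp (f g : P ⟶ P) : pr R hunit P (f ≫ g : P ⟶ P) =
    pr R hunit P (show End P from g) * pr R hunit P (show End P from f) :=
  (map_mul (pr R hunit P) (show End P from g) (show End P from f))

theorem dd_pr {i : X ⟶ P} {r : P ⟶ X} (hi : i ≫ r = 𝟙 X) {j : Y ⟶ P} {s : P ⟶ Y}
    (hj : j ≫ s = 𝟙 Y) : dd ℚ (pr R hunit P (show End P from s ≫ j))
      (pr R hunit P (show End P from r ≫ i)) = numRank X Y := by
  let Φ : (X ⟶ Y) →ₗ[ℚ] AA R hunit P := AddMonoidHom.toRatLinearMap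
    (AddMonoidHom.mk' (fun f => pr R hunit P (show End P from r ≫ f ≫ j)) (fun a b => by
      have : (show End P from r ≫ (a + b) ≫ j) = (show End P from r ≫ a ≫ j) +
          (show End P from r ≫ b ≫ j) := by
        change r ≫ (a + b) ≫ j = r ≫ a ≫ j + r ≫ b ≫ j
        rw [Preadditive.add_comp, Preadditive.comp_add]
      rw [this, map_add]))
  have hΦ : ∀ f, Φ f = pr R hunit P (show End P from r ≫ f ≫ j) := fun f => rfl
  have hk : LinearMap.ker Φ = Submodule.span ℚ {f : X ⟶ Y | NumTriv f} := by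
    ext f
    rw [mem_span_iff R hunit, LinearMap.mem_ker, hΦ, pr_eq_zero]
    constructor
    · intro h
      have e : f = i ≫ ((r ≫ f ≫ j) ≫ s) := by
        rw [Category.assoc, Category.assoc, hj, Category.comp_id, ← Category.assoc, hi,
          Category.id_comp]
      rw [e]
      exact (NumTriv.comp_right (show NumTriv (r ≫ f ≫ j) from h) s).comp_left R hunit i
    · intro h
      exact (NumTriv.comp_right h j).comp_left R hunit r
  have hr : LinearMap.range (LinearMap.mulLeft ℚ (pr R hunit P (show End P from s ≫ j)) ∘ₗ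
      LinearMap.mulRight ℚ (pr R hunit P (show End P from r ≫ i))) = LinearMap.range Φ := by
    apply le_antisymm
    · rintro _ ⟨a, rfl⟩
      obtain ⟨h, rfl⟩ := pr_surj R hunit P a
      refine ⟨i ≫ (h : P ⟶ P) ≫ s, ?_⟩
      rw [hΦ, LinearMap.comp_apply, LinearMap.mulRight_apply, LinearMap.mulLeft_apply, ← map_mul,
        ← map_mul]
      congr 1
      change r ≫ (i ≫ (h : P ⟶ P) ≫ s) ≫ j = ((r ≫ i) ≫ (h : P ⟶ P)) ≫ (s ≫ j)
      simp only [Category.assoc]
    · rintro _ ⟨f, rfl⟩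
      refine ⟨pr R hunit P (show End P from r ≫ f ≫ j), ?_⟩
      rw [hΦ, LinearMap.comp_apply, LinearMap.mulRight_apply, LinearMap.mulLeft_apply, ← map_mul,
        ← map_mul]
      congr 1
      change ((r ≫ i) ≫ (r ≫ f ≫ j)) ≫ (s ≫ j) = r ≫ f ≫ j
      have e1 : (r ≫ i) ≫ (r ≫ f ≫ j) = r ≫ f ≫ j := by
        rw [Category.assoc, ← Category.assoc i r, hi, Category.id_comp]
      rw [e1]
      have e2 : (r ≫ f ≫ j) ≫ s ≫ j = r ≫ f ≫ (j ≫ s) ≫ j := by simp only [Category.assoc]
      rw [e2, hj, Category.id_comp]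
  rw [dd, hr, numRank, ← hk]
  exact (LinearEquiv.finrank_eq Φ.quotKerEquivRange).symm

include R hunit in
theorem numRank_le_of {X' Y' : C} (φ : (X ⟶ Y) →+ (X' ⟶ Y'))
    (h : ∀ f, NumTriv (φ f) ↔ NumTriv f) : numRank X Y ≤ numRank X' Y' := by
  have h1 := finite_num R hunit X' Y'
  let ψ : (X ⟶ Y) →ₗ[ℚ] (X' ⟶ Y') ⧸ Submodule.span ℚ {f : X' ⟶ Y' | NumTriv f} :=
    (Submodule.mkQ _) ∘ₗ φ.toRatLinearMap
  have hk : LinearMap.ker ψ = Submodule.span ℚ {f : X ⟶ Y | NumTriv f} := by
    ext f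
    rw [mem_span_iff R hunit, LinearMap.mem_ker, ← h f, ← mem_span_iff R hunit]
    exact Submodule.Quotient.mk_eq_zero _
  have h4 : numRank X Y = Module.finrank ℚ (LinearMap.range ψ) := by
    rw [numRank, ← hk]
    exact LinearEquiv.finrank_eq ψ.quotKerEquivRange
  rw [h4, numRank]
  exact Submodule.finrank_le _

include R hunit in
theorem NumTriv.of_sub {f g : X ⟶ Y} (h : NumTriv (f - g)) (hf : NumTriv f) : NumTriv g := by
  have e : g = f + -(f - g) := by abel
  rw [e]
  exact NumTriv.add R hunit hf (NumTriv.neg R hunit h)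

include R hunit in
theorem ranks_of_numIso {M N : C} (h : NumIso M N) :
    numRank M M = numRank M N ∧ numRank N N = numRank M N := by
  obtain ⟨α, β, h1, h2⟩ := h
  have key1 : ∀ {Z : C} (f : Z ⟶ M), NumTriv (f ≫ α) ↔ NumTriv f := by
    intro Z f
    refine ⟨fun h => ?_, fun h => h.comp_right α⟩
    have h3 := h.comp_right β
    refine NumTriv.of_sub R hunit (f := (f ≫ α) ≫ β) ?_ h3
    have e : (f ≫ α) ≫ β - f = f ≫ (α ≫ β - 𝟙 M) := by
      rw [Preadditive.comp_sub, Category.comp_id, Category.assoc]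
    rw [e]
    exact h1.comp_left R hunit f
  have key2 : ∀ {Z : C} (f : Z ⟶ N), NumTriv (f ≫ β) ↔ NumTriv f := by
    intro Z f
    refine ⟨fun h => ?_, fun h => h.comp_right β⟩
    have h3 := h.comp_right α
    refine NumTriv.of_sub R hunit (f := (f ≫ β) ≫ α) ?_ h3
    have e : (f ≫ β) ≫ α - f = f ≫ (β ≫ α - 𝟙 N) := by
      rw [Preadditive.comp_sub, Category.comp_id, Category.assoc]
    rw [e]
    exact h2.comp_left R hunit f
  have key3 : ∀ {Z : C} (f : N ⟶ Z), NumTriv (α ≫ f) ↔ NumTriv f := by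
    intro Z f
    refine ⟨fun h => ?_, fun h => h.comp_left R hunit α⟩
    have h3 := h.comp_left R hunit β
    refine NumTriv.of_sub R hunit (f := β ≫ α ≫ f) ?_ h3
    have e : β ≫ α ≫ f - f = (β ≫ α - 𝟙 N) ≫ f := by
      rw [Preadditive.sub_comp, Category.id_comp, Category.assoc]
    rw [e]
    exact h2.comp_right f
  have key4 : ∀ {Z : C} (f : M ⟶ Z), NumTriv (β ≫ f) ↔ NumTriv f := by
    intro Z f
    refine ⟨fun h => ?_, fun h => h.comp_left R hunit β⟩
    have h3 := h.comp_left R hunit α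
    refine NumTriv.of_sub R hunit (f := α ≫ β ≫ f) ?_ h3
    have e : α ≫ β ≫ f - f = (α ≫ β - 𝟙 M) ≫ f := by
      rw [Preadditive.sub_comp, Category.id_comp, Category.assoc]
    rw [e]
    exact h1.comp_right f
  constructor
  · apply le_antisymm
    · exact numRank_le_of R hunit (AddMonoidHom.mk' (fun f => f ≫ α)
        (fun a b => Preadditive.add_comp _ _ _ _ _ _)) (fun f => key1 f)
    · exact numRank_le_of R hunit (AddMonoidHom.mk' (fun f => f ≫ β)
        (fun a b => Preadditive.add_comp _ _ _ _ _ _)) (fun f => key2 f)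
  · apply le_antisymm
    · exact numRank_le_of R hunit (AddMonoidHom.mk' (fun f => α ≫ f)
        (fun a b => Preadditive.comp_add _ _ _ _ _ _)) (fun f => key3 f)
    · exact numRank_le_of R hunit (AddMonoidHom.mk' (fun f => β ≫ f)
        (fun a b => Preadditive.comp_add _ _ _ _ _ _)) (fun f => key4 f)

theorem iso_of_nilp {M N : C} (α : M ⟶ N) (β : N ⟶ M)
    (h1 : IsNilpotent (show End M from α ≫ β - 𝟙 M))
    (h2 : IsNilpotent (show End N from β ≫ α - 𝟙 N)) : Nonempty (M ≅ N) := by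
  have e1 : (show End M from α ≫ β) = 1 + (show End M from α ≫ β - 𝟙 M) := by
    change α ≫ β = 𝟙 M + (α ≫ β - 𝟙 M)
    abel
  have e2 : (show End N from β ≫ α) = 1 + (show End N from β ≫ α - 𝟙 N) := by
    change β ≫ α = 𝟙 N + (β ≫ α - 𝟙 N)
    abel
  have u1 : IsUnit (show End M from α ≫ β) := e1 ▸ h1.isUnit_one_add
  have u2 : IsUnit (show End N from β ≫ α) := e2 ▸ h2.isUnit_one_add
  obtain ⟨a, ha⟩ := u1.exists_left_inv
  obtain ⟨b, hb⟩ := u2.exists_right_inv
  change (α ≫ β) ≫ a = 𝟙 M at ha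
  change b ≫ (β ≫ α) = 𝟙 N at hb
  have hl : (b ≫ β) ≫ α = 𝟙 N := by rw [Category.assoc]; exact hb
  have hr : α ≫ (β ≫ a) = 𝟙 M := by rw [← Category.assoc]; exact ha
  have he : b ≫ β = β ≫ a := by
    calc b ≫ β = (b ≫ β) ≫ (α ≫ (β ≫ a)) := by rw [hr, Category.comp_id]
      _ = ((b ≫ β) ≫ α) ≫ (β ≫ a) := by simp only [Category.assoc]
      _ = β ≫ a := by rw [hl, Category.id_comp]
  exact ⟨⟨α, β ≫ a, hr, by rw [← he]; exact hl⟩⟩

include R hunit in
theorem main [HasBinaryBiproducts C] (M N : C) :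
    2 * numRank M N ≤ numRank M M + numRank N N ∧
      (2 * numRank M N = numRank M M + numRank N N ↔ NumIso M N) := by
  set P : C := M ⊞ N
  have hfin := finite_AA R hunit P
  have hM : (biprod.inl : M ⟶ P) ≫ biprod.fst = 𝟙 M := biprod.inl_fst
  have hN : (biprod.inr : N ⟶ P) ≫ biprod.snd = 𝟙 N := biprod.inr_snd
  have cMM := dd_pr R hunit hM hM
  have cNN := dd_pr R hunit hN hN
  have cMN := dd_pr R hunit hM hN
  have cNM := dd_pr R hunit hN hM
  set p : AA R hunit P := pr R hunit P (show End P from (biprod.fst : P ⟶ M) ≫ biprod.inl) with hp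
  set q : AA R hunit P := pr R hunit P (show End P from (biprod.snd : P ⟶ N) ≫ biprod.inr) with hq
  have hpp : p * p = p := by
    rw [hp, ← map_mul]
    congr 1
    change (biprod.fst ≫ biprod.inl) ≫ (biprod.fst ≫ biprod.inl) = biprod.fst ≫ biprod.inl
    simp
  have hqq : q * q = q := by
    rw [hq, ← map_mul]
    congr 1
    change (biprod.snd ≫ biprod.inr) ≫ (biprod.snd ≫ biprod.inr) = biprod.snd ≫ biprod.inr
    simp
  obtain ⟨k1, k2⟩ := corner (F := ℚ) (regular_AA R hunit P) p q hpp hqq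
  rw [cMM, cNN, cMN, cNM, numRank_symm R hunit N M, ← two_mul] at k1 k2
  refine ⟨k1, fun h => ?_, fun h => ?_⟩
  · obtain ⟨u, v, h1, h2, h3, h4⟩ := k2 h
    obtain ⟨f, rfl⟩ := pr_surj R hunit P u
    obtain ⟨g, rfl⟩ := pr_surj R hunit P v
    refine ⟨biprod.inl ≫ (g : P ⟶ P) ≫ biprod.snd, biprod.inr ≫ (f : P ⟶ P) ≫ biprod.fst, ?_, ?_⟩
    · have e : pr R hunit P (show End P from biprod.fst ≫
          (((biprod.inl ≫ (g : P ⟶ P) ≫ biprod.snd) ≫ (biprod.inr ≫ (f : P ⟶ P) ≫ biprod.fst)) -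
            𝟙 M) ≫ biprod.inl) = 0 := by
        have e1 : (show End P from biprod.fst ≫
          (((biprod.inl ≫ (g : P ⟶ P) ≫ biprod.snd) ≫ (biprod.inr ≫ (f : P ⟶ P) ≫ biprod.fst)) -
            𝟙 M) ≫ biprod.inl) =
          (show End P from (biprod.fst : P ⟶ M) ≫ biprod.inl) * f *
            (show End P from (biprod.snd : P ⟶ N) ≫ biprod.inr) * g *
            (show End P from (biprod.fst : P ⟶ M) ≫ biprod.inl) -
            (show End P from (biprod.fst : P ⟶ M) ≫ biprod.inl) := by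
          change biprod.fst ≫
            (((biprod.inl ≫ (g : P ⟶ P) ≫ biprod.snd) ≫ (biprod.inr ≫ (f : P ⟶ P) ≫ biprod.fst)) -
            𝟙 M) ≫ biprod.inl = (biprod.fst ≫ biprod.inl) ≫ ((g : P ⟶ P) ≫
              ((biprod.snd ≫ biprod.inr) ≫ ((f : P ⟶ P) ≫ (biprod.fst ≫ biprod.inl)))) -
              biprod.fst ≫ biprod.inl
          simp only [Preadditive.sub_comp, Preadditive.comp_sub, Category.assoc, Category.id_comp]
        rw [e1, map_sub, map_mul, map_mul, map_mul, map_mul, ← hp, ← hq, h1, h3, hpp, sub_self]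
      rw [pr_eq_zero] at e
      have e2 := (NumTriv.comp_right e (biprod.fst : P ⟶ M)).comp_left R hunit
        (biprod.inl : M ⟶ P)
      simpa using e2
    · have e : pr R hunit P (show End P from biprod.snd ≫
          (((biprod.inr ≫ (f : P ⟶ P) ≫ biprod.fst) ≫ (biprod.inl ≫ (g : P ⟶ P) ≫ biprod.snd)) -
            𝟙 N) ≫ biprod.inr) = 0 := by
        have e1 : (show End P from biprod.snd ≫
          (((biprod.inr ≫ (f : P ⟶ P) ≫ biprod.fst) ≫ (biprod.inl ≫ (g : P ⟶ P) ≫ biprod.snd)) -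
            𝟙 N) ≫ biprod.inr) =
          (show End P from (biprod.snd : P ⟶ N) ≫ biprod.inr) * g *
            (show End P from (biprod.fst : P ⟶ M) ≫ biprod.inl) * f *
            (show End P from (biprod.snd : P ⟶ N) ≫ biprod.inr) -
            (show End P from (biprod.snd : P ⟶ N) ≫ biprod.inr) := by
          change biprod.snd ≫
            (((biprod.inr ≫ (f : P ⟶ P) ≫ biprod.fst) ≫ (biprod.inl ≫ (g : P ⟶ P) ≫ biprod.snd)) -
            𝟙 N) ≫ biprod.inr = (biprod.snd ≫ biprod.inr) ≫ ((f : P ⟶ P) ≫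
              ((biprod.fst ≫ biprod.inl) ≫ ((g : P ⟶ P) ≫ (biprod.snd ≫ biprod.inr)))) -
              biprod.snd ≫ biprod.inr
          simp only [Preadditive.sub_comp, Preadditive.comp_sub, Category.assoc, Category.id_comp]
        rw [e1, map_sub, map_mul, map_mul, map_mul, map_mul, ← hp, ← hq, h2, h4, hqq, sub_self]
      rw [pr_eq_zero] at e
      have e2 := (NumTriv.comp_right e (biprod.snd : P ⟶ N)).comp_left R hunit
        (biprod.inr : N ⟶ P)
      simpa using e2
  · obtain ⟨h1, h2⟩ := ranks_of_numIso R hunit h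
    omega

end

end Pool.Agent.Q69.MR
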