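import Pool.Agent.Q69.MR.Str
import Pool.Agent.Q259.NCSign.Crit

/-!
# Numerically trivial morphisms of a rigid category with a super realisation
-/

set_option autoImplicit false
set_option linter.unusedSectionVars false

open CategoryTheory Limits MonoidalCategory

universe v u w

namespace Pool.Agent.Q69.MR

open Pool.Agent.Y112.SR Pool.Agent.Q259.NCSign

section Defs

variable {C : Type u} [Category.{v} C] [Preadditive C] [Linear ℚ C] [MonoidalCategory C]
  [SymmetricCategory C] [RightRigidCategory C]

/-- The morphism `f` is numerically trivial: the traces of all the endomorphisms `f ≫ g` vanish. -/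
def NumTriv {M N : C} (f : M ⟶ N) : Prop := ∀ g : N ⟶ M, ctr (f ≫ g) = 0

/-- The dimension of the space of morphisms modulo the numerically trivial ones. -/
noncomputable def numRank (M N : C) : ℕ :=
  Module.finrank ℚ ((M ⟶ N) ⧸ Submodule.span ℚ {f : M ⟶ N | NumTriv f})

/-- `M` and `N` are isomorphic modulo numerically trivial morphisms. -/
def NumIso (M N : C) : Prop :=
  ∃ (f : M ⟶ N) (g : N ⟶ M), NumTriv (f ≫ g - 𝟙 M) ∧ NumTriv (g ≫ f - 𝟙 N)

end Defs

section

variable {C : Type u} [Category.{v} C] [Preadditive C] [Linear ℚ C] [MonoidalCategory C]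
  [SymmetricCategory C] [RightRigidCategory C] {K : Type w} [Field K] (R : SuperRealisation C K)
  (hunit : ∀ c : 𝟙_ C ⟶ 𝟙_ C, ∃ q : ℚ, c = q • 𝟙 (𝟙_ C))

/-- the trace as a rational number -/
noncomputable def tr {M : C} (f : M ⟶ M) : ℚ := Classical.choose (hunit (ctr f))

/-- the supertrace of the realisation -/
noncomputable def st {M : C} (f : M ⟶ M) : K :=
  LinearMap.trace K (R.H.obj M) (R.H.map f ≫ R.par M).hom

theorem cast_tr {M : C} (f : M ⟶ M) : ((tr hunit f : ℚ) : K) = st R f :=
  (trace_of_ctr R (Classical.choose_spec (hunit (ctr f)))).symm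

include R in
theorem tr_inj {a b : ℚ} (h : (a : K) = b) : a = b := by
  have hK := R_charZero R
  exact_mod_cast h

theorem st_comm {M N : C} (f : M ⟶ N) (g : N ⟶ M) : st R (f ≫ g) = st R (g ≫ f) := by
  have h0 := R.finite M
  have h0' := R.finite N
  rw [st, st, Functor.map_comp, Functor.map_comp, Category.assoc, Category.assoc, R.par_natural f,
    ModuleCat.hom_comp, ← Category.assoc, ModuleCat.hom_comp (R.H.map g ≫ R.par M)]
  exact LinearMap.trace_comp_comm' _ _

theorem st_add {M : C} (f g : M ⟶ M) : st R (f + g) = st R f + st R g := by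
  rw [st, st, st, Functor.map_add, Preadditive.add_comp, ModuleCat.hom_add, map_add]

theorem st_sub {M : C} (f g : M ⟶ M) : st R (f - g) = st R f - st R g := by
  rw [st, st, st, Functor.map_sub, Preadditive.sub_comp, ModuleCat.hom_sub, map_sub]

include R in
theorem tr_add {M : C} (f g : M ⟶ M) : tr hunit (f + g) = tr hunit f + tr hunit g := by
  have hK := R_charZero R
  apply tr_inj R
  push_cast
  rw [cast_tr R, cast_tr R, cast_tr R, st_add]

include R in
theorem tr_sub {M : C} (f g : M ⟶ M) : tr hunit (f - g) = tr hunit f - tr hunit g := by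
  have hK := R_charZero R
  apply tr_inj R
  push_cast
  rw [cast_tr R, cast_tr R, cast_tr R, st_sub]

include R in
theorem tr_comm {M N : C} (f : M ⟶ N) (g : N ⟶ M) : tr hunit (f ≫ g) = tr hunit (g ≫ f) := by
  apply tr_inj R
  rw [cast_tr R, cast_tr R, st_comm]

include R in
theorem tr_eq_zero_iff {M : C} (f : M ⟶ M) : ctr f = 0 ↔ tr hunit f = 0 := by
  constructor
  · intro h
    apply tr_inj R
    rw [cast_tr R, st, trace_of_ctr R (q := 0) (by rw [h, zero_smul])]
  · intro h
    have := Classical.choose_spec (hunit (ctr f))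
    change ctr f = tr hunit f • _ at this
    rw [this, h, zero_smul]

variable {M N P : C}

include R in
theorem numTriv_iff {f : M ⟶ N} : NumTriv f ↔ ∀ g : N ⟶ M, tr hunit (f ≫ g) = 0 :=
  forall_congr' fun _ => tr_eq_zero_iff R hunit _

theorem NumTriv.comp_right {f : M ⟶ N} (h : NumTriv f) (g : N ⟶ P) : NumTriv (f ≫ g) := by
  intro k
  rw [Category.assoc]
  exact h _

include R hunit in
theorem NumTriv.comp_left {f : M ⟶ N} (h : NumTriv f) (g : P ⟶ M) : NumTriv (g ≫ f) := by
  rw [numTriv_iff R hunit] at h ⊢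
  intro k
  rw [Category.assoc, tr_comm R, Category.assoc]
  exact h _

include R hunit in
theorem NumTriv.add {f g : M ⟶ N} (h : NumTriv f) (h' : NumTriv g) : NumTriv (f + g) := by
  rw [numTriv_iff R hunit] at h h' ⊢
  intro k
  rw [Preadditive.add_comp, tr_add R, h, h', add_zero]

include R hunit in
theorem numTriv_zero : NumTriv (0 : M ⟶ N) := by
  rw [numTriv_iff R hunit]
  intro k
  have := tr_sub R hunit (0 : M ⟶ M) 0
  rw [zero_comp]
  simpa using this

include R hunit in
theorem NumTriv.smul {f : M ⟶ N} (q : ℚ) (h : NumTriv f) : NumTriv (q • f) := by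
  have : q • f = (q • 𝟙 M) ≫ f := by rw [Linear.smul_comp, Category.id_comp]
  rw [this]
  exact h.comp_left R hunit _

include R hunit in
theorem NumTriv.neg {f : M ⟶ N} (h : NumTriv f) : NumTriv (-f) := by
  have : -f = (-𝟙 M) ≫ f := by rw [Preadditive.neg_comp, Category.id_comp]
  rw [this]
  exact h.comp_left R hunit _

include R hunit in
theorem mem_span_iff {f : M ⟶ N} :
    f ∈ Submodule.span ℚ {f : M ⟶ N | NumTriv f} ↔ NumTriv f := by
  refine ⟨fun h => ?_, fun h => Submodule.subset_span h⟩
  induction h using Submodule.span_induction with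
  | mem x hx => exact hx
  | zero => exact numTriv_zero R hunit
  | add x y _ _ hx hy => exact hx.add R hunit hy
  | smul q x _ hx => exact hx.smul R hunit q

include R in
/-- the trace of a composition as a linear map -/
noncomputable def trl (g : N ⟶ M) : (M ⟶ N) →ₗ[ℚ] ℚ :=
  AddMonoidHom.toRatLinearMap (AddMonoidHom.mk' (fun f => tr hunit (f ≫ g)) (fun a b => by
    rw [Preadditive.add_comp, tr_add R]))

theorem trl_apply (g : N ⟶ M) (f : M ⟶ N) : trl R hunit g f = tr hunit (f ≫ g) := rfl

include R hunit in
/-- finitely many morphisms detect the numerically trivial ones -/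
theorem exists_detect (M N : C) : ∃ s : Set (N ⟶ M), s.Finite ∧
    ∀ f : M ⟶ N, (∀ g ∈ s, tr hunit (f ≫ g) = 0) → NumTriv f := by
  have h0 := R.finite M
  have h0' := R.finite N
  set r : Set (R.H.obj N →ₗ[K] R.H.obj M) := Set.range (fun g : N ⟶ M => (R.H.map g).hom) with hr
  obtain ⟨b, hbr, hbs, hbl⟩ := exists_linearIndependent K r
  have hbf : b.Finite := hbl.setFinite
  choose! G hG using fun x (hx : x ∈ b) => hbr hx
  refine ⟨G '' b, hbf.image _, fun f hf => ?_⟩
  rw [numTriv_iff R hunit]
  intro g
  apply tr_inj R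
  rw [cast_tr R]
  let Φ : (R.H.obj N →ₗ[K] R.H.obj M) →ₗ[K] K :=
    { toFun := fun x => LinearMap.trace K (R.H.obj M) ((R.par M).hom ∘ₗ x ∘ₗ (R.H.map f).hom)
      map_add' := fun x y => by
        rw [LinearMap.add_comp, LinearMap.comp_add, map_add]
      map_smul' := fun c x => by
        rw [LinearMap.smul_comp, LinearMap.comp_smul, map_smul]; rfl }
  have hΦ : ∀ g : N ⟶ M, Φ (R.H.map g).hom = st R (f ≫ g) := by
    intro g
    rw [st, Functor.map_comp, ModuleCat.hom_comp, ModuleCat.hom_comp]
    rfl
  have hspan : ∀ x ∈ Submodule.span K r, Φ x = 0 := by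
    intro x hx
    rw [← hbs] at hx
    induction hx using Submodule.span_induction with
    | mem x hx =>
      have h1 := hG x hx
      change (R.H.map (G x)).hom = x at h1
      rw [← h1, hΦ, ← cast_tr R hunit, hf _ ⟨x, hx, rfl⟩, Rat.cast_zero]
    | zero => exact map_zero _
    | add x y _ _ hx hy => rw [map_add, hx, hy, add_zero]
    | smul c x _ hx => rw [map_smul, hx, smul_zero]
  rw [← hΦ g, hspan _ (Submodule.subset_span ⟨g, rfl⟩), Rat.cast_zero]

include R hunit in
theorem finite_num (M N : C) :
    Module.Finite ℚ ((M ⟶ N) ⧸ Submodule.span ℚ {f : M ⟶ N | NumTriv f}) := by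
  obtain ⟨s, hs, hsd⟩ := exists_detect R hunit M N
  have := hs.to_subtype
  let Λ : (M ⟶ N) →ₗ[ℚ] (s → ℚ) := LinearMap.pi fun g => trl R hunit g.1
  have hk : LinearMap.ker Λ = Submodule.span ℚ {f : M ⟶ N | NumTriv f} := by
    ext f
    rw [mem_span_iff R hunit, LinearMap.mem_ker]
    constructor
    · intro h
      exact hsd f fun g hg => congrFun h ⟨g, hg⟩
    · intro h
      funext g
      exact (numTriv_iff R hunit).1 h g.1
  rw [← hk]
  exact Module.Finite.equiv Λ.quotKerEquivRange.symm

include R hunit in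
theorem numRank_le (M N : C) : numRank M N ≤ numRank N M := by
  have f1 := finite_num R hunit M N
  have f2 := finite_num R hunit N M
  -- the pairing
  let B : (M ⟶ N) →ₗ[ℚ] Module.Dual ℚ ((N ⟶ M) ⧸ Submodule.span ℚ {f : N ⟶ M | NumTriv f}) :=
    AddMonoidHom.toRatLinearMap (AddMonoidHom.mk' (fun f =>
      Submodule.liftQ _ (trl R hunit f) (by
        intro g hg
        rw [mem_span_iff R hunit] at hg
        rw [LinearMap.mem_ker, trl_apply]
        exact (numTriv_iff R hunit).1 hg f)) (fun a b => by
        apply Submodule.linearMap_qext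
        apply LinearMap.ext
        intro g
        change tr hunit (g ≫ (a + b)) = tr hunit (g ≫ a) + tr hunit (g ≫ b)
        rw [Preadditive.comp_add, tr_add R]))
  have hB : ∀ f, B f = 0 → NumTriv f := by
    intro f hf
    rw [numTriv_iff R hunit]
    intro g
    have h1 := LinearMap.congr_fun hf (Submodule.Quotient.mk g)
    change tr hunit (g ≫ f) = 0 at h1
    rw [tr_comm R]
    exact h1
  have hk : LinearMap.ker B = Submodule.span ℚ {f : M ⟶ N | NumTriv f} := by
    ext f
    rw [mem_span_iff R hunit, LinearMap.mem_ker]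
    refine ⟨hB f, fun h => ?_⟩
    apply Submodule.linearMap_qext
    apply LinearMap.ext
    intro g
    change tr hunit (g ≫ f) = 0
    rw [tr_comm R]
    exact (numTriv_iff R hunit).1 h g
  have h2 := LinearEquiv.finrank_eq B.quotKerEquivRange
  have h3 : Module.finrank ℚ (Module.Dual ℚ ((N ⟶ M) ⧸ Submodule.span ℚ {f : N ⟶ M | NumTriv f})) =
      numRank N M := Subspace.dual_finrank_eq
  have h4 : numRank M N = Module.finrank ℚ (LinearMap.range B) := by
    rw [numRank, ← hk, h2]
  rw [h4, ← h3]
  exact Submodule.finrank_le _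

include R hunit in
theorem numRank_symm (M N : C) : numRank M N = numRank N M :=
  le_antisymm (numRank_le R hunit M N) (numRank_le R hunit N M)

include R in
theorem tr_nilp (f : M ⟶ M) (n : ℕ) (h : NumTriv (((show End M from f) ^ n : End M) : M ⟶ M)) :
    tr hunit f = 0 := by
  have h0 := R.finite M
  apply tr_inj R
  rw [cast_tr R, Rat.cast_zero]
  have hop : (R.H.map f).hom ∈ ops R M := ⟨f, rfl⟩
  have key := str_pow (sgn R M) (R.H.map f).hom (sgn_comm R hop) n (by
    intro m hm
    have h1 : NumTriv (((show End M from f) ^ m : End M) : M ⟶ M) := by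
      obtain ⟨k, rfl⟩ := Nat.exists_eq_add_of_le hm
      rw [pow_add]
      exact h.comp_left R hunit _
    have h2 := (numTriv_iff R hunit).1 h1 (𝟙 _)
    rw [Category.comp_id] at h2
    have h3 := cast_tr R hunit (((show End M from f) ^ m : End M) : M ⟶ M)
    rw [h2, Rat.cast_zero] at h3
    have h4 : (R.H.map (((show End M from f) ^ m : End M) : M ⟶ M)).hom =
        (R.H.map f).hom ^ m := map_pow (opHom R M) (show End M from f) m
    rw [st, ModuleCat.hom_comp, h4] at h3
    have hc : Commute (sgn R M) ((R.H.map f).hom ^ m) := (show Commute (sgn R M) (R.H.map f).hom from sgn_comm R hop).pow_right m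
    rw [← hc.eq]
    exact h3.symm)
  rw [st, ModuleCat.hom_comp]
  rw [← sgn_comm R hop] at key
  exact key

end

end Pool.Agent.Q69.MR
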