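import Mathlib

/-!
# Supertraces of the powers of an operator
-/

set_option autoImplicit false

open Polynomial

namespace Pool.Agent.Q69.MR

variable {K V : Type*} [Field K] [AddCommGroup V] [Module K V] [Module.Finite K V]

/-- If the supertraces of all high powers of `T` vanish, then the supertrace of `T` vanishes. -/
theorem str_pow (ε T : Module.End K V) (hT : ε * T = T * ε) (N : ℕ)
    (h : ∀ m, N ≤ m → LinearMap.trace K V (T ^ m * ε) = 0) : LinearMap.trace K V (T * ε) = 0 := by
  have hint : IsIntegral K T := Algebra.IsIntegral.isIntegral T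
  have hne : minpoly K T ≠ 0 := minpoly.ne_zero hint
  obtain ⟨g, hg, hgX⟩ := exists_eq_pow_rootMultiplicity_mul_and_not_dvd (minpoly K T) hne 0
  set a := rootMultiplicity 0 (minpoly K T)
  rw [C_0, sub_zero] at hg hgX
  set n := max (N + 1) (a + 1) with hn
  have hcop : IsCoprime (X ^ n : K[X]) g :=
    ((Irreducible.coprime_iff_not_dvd irreducible_X).2 hgX).pow_left
  obtain ⟨u, v, huv⟩ := hcop
  -- `T ^ n * (v g)(T) = 0`
  have h0 : T ^ n * aeval T (v * g) = 0 := by
    have e : (X ^ n * (v * g) : K[X]) = minpoly K T * (X ^ (n - a) * v) := by
      have e1 : (X : K[X]) ^ n = X ^ a * X ^ (n - a) := by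
        rw [← pow_add]; congr 1; omega
      rw [hg, e1]; ring
    have := congrArg (aeval T) e
    rw [map_mul, map_mul (aeval T) (minpoly K T), minpoly.aeval, zero_mul, map_pow, aeval_X] at this
    exact this
  -- the part `T * (u X^n)(T)`
  have h1 : LinearMap.trace K V (T * aeval T (u * X ^ n) * ε) = 0 := by
    have : ∀ w : K[X], LinearMap.trace K V (T * aeval T (w * X ^ n) * ε) = 0 := by
      intro w
      induction w using Polynomial.induction_on' with
      | add p q hp hq => rw [add_mul, map_add, mul_add, add_mul, map_add, hp, hq, add_zero]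
      | monomial k c =>
        have e : T * aeval T (monomial k c * X ^ n) = c • T ^ (k + n + 1) := by
          rw [map_mul, aeval_monomial, map_pow, aeval_X, mul_assoc, ← pow_add,
            ← Algebra.smul_def, mul_smul_comm, ← pow_succ']
        rw [e, smul_mul_assoc, map_smul, h _ (by omega), smul_zero]
    exact this u
  -- the part `T * (v g)(T)` is nilpotent
  have hc : Commute ε (T * aeval T (v * g)) := by
    have hT' : Commute ε T := hT
    refine hT'.mul_right ?_
    induction (v * g) using Polynomial.induction_on' with
    | add p q hp hq => rw [map_add]; exact hp.add_right hq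
    | monomial k c =>
      rw [aeval_monomial]
      exact (Algebra.commute_algebraMap_right c ε).mul_right (hT'.pow_right k)
  have h2 : LinearMap.trace K V (T * aeval T (v * g) * ε) = 0 := by
    have hnil : IsNilpotent (T * aeval T (v * g)) := by
      refine ⟨n, ?_⟩
      have hcT : Commute T (aeval T (v * g)) := by
        have : aeval T (X * (v * g)) = aeval T ((v * g) * X) := by rw [mul_comm]
        rw [map_mul, map_mul (aeval T) (v * g), aeval_X] at this
        exact this
      rw [hcT.mul_pow]
      have : n = (n - 1) + 1 := by omega
      nth_rewrite 2 [this]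
      rw [pow_succ', ← mul_assoc, h0, zero_mul]
    have hnil2 : IsNilpotent (T * aeval T (v * g) * ε) := by
      have hc' : Commute (T * aeval T (v * g)) ε := hc.symm
      exact hc'.isNilpotent_mul_right hnil
    exact (LinearMap.isNilpotent_trace_of_isNilpotent hnil2).eq_zero
  have h3 : T = T * aeval T (u * X ^ n) + T * aeval T (v * g) := by
    rw [← mul_add, ← map_add, huv, map_one, mul_one]
  rw [h3, add_mul, map_add, h1, h2, add_zero]

end Pool.Agent.Q69.MR
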